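import Mathlib
import Pool.Agent.Q125.VK.Main

/-!
# The virtual unknotting number equals the virtual unknotting sequence number

Virtual knots are Gauss diagrams modulo the Reidemeister moves (`Pool.Agent.Q125.VK.Defs`). The
theorem says `vu(K) = vus(K)` for every virtual knot `K`.

Idea of the proof: along a sequence of moves and virtualizations that starts at a diagram `D` we
keep a diagram `D'` of the same knot as `D`, a part of which is called junk, such that the other
(real) ends form the current diagram `E` of the sequence, and such that after virtualizing all the
crossings of a set `S` of junk crossings the whole junk can be removed by first and second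
Reidemeister moves, even if the real ends are kept as obstacles. A removal move on `E` turns real
ends into junk, which cancels after the virtualization; an adding move is done next to a real end.
For a third Reidemeister move on `E`, three pairs of parallel copies of the three crossings are
added next to the real ends by second Reidemeister moves, the move is applied to three of the copies
and the old crossings become junk. A crossing of `E` which is virtualized becomes junk and is put
into `S`. When `E` is the diagram without crossings, virtualizing all the crossings of `S` at once
in `D'` gives the unknot.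
-/

set_option autoImplicit false

namespace Pool.Agent.Results.MP_f8820e_gt.VirtualUnknottingSequence

open Pool.Agent.Q125.VK

/-- `VirtualizingSequence K k`: there is a procedure which starts at a diagram of `K`, alternates
between diagrammatic moves and virtualizations of sets of crossings, ends with a diagram of the
unknot, and virtualizes `k` crossings altogether. In one step a diagram `D` of the current knot is
chosen and the crossings in `S` are virtualized. -/
inductive VirtualizingSequence : VirtualKnot → ℕ → Prop
  | done : VirtualizingSequence unknot 0
  | step (D : Diagram) (S : Finset ℕ) (hS : S ⊆ crossings D.1) (k : ℕ)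
      (h : VirtualizingSequence (knot (D.virtualize S)) k) :
      VirtualizingSequence (knot D) (S.card + k)

/-- The virtual unknotting number: the minimal number of crossings of a diagram of `K` whose
simultaneous virtualization gives a diagram of the unknot. -/
noncomputable def vu (K : VirtualKnot) : ℕ∞ :=
  sInf {n | ∃ (D : Diagram) (S : Finset ℕ), knot D = K ∧ S ⊆ crossings D.1 ∧
    knot (D.virtualize S) = unknot ∧ n = S.card}

/-- The virtual unknotting sequence number: the minimal number of virtualized crossings in a
procedure which alternates between moves and virtualizations and ends with the unknot. -/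
noncomputable def vus (K : VirtualKnot) : ℕ∞ :=
  sInf {n | ∃ k : ℕ, VirtualizingSequence K k ∧ n = k}

theorem simultaneous {K : VirtualKnot} {k : ℕ} (h : VirtualizingSequence K k) :
    ∀ (D E : Diagram) (S : Finset ℕ) (w : List Lt), knot E = K → Rep vop D.1 E.1 S w →
      ∃ (D' : Diagram) (S' : Finset ℕ), knot D' = knot D ∧ S' ⊆ crossings D'.1 ∧
        knot (D'.virtualize S') = unknot ∧ S'.card = S.card + k := by
  induction h with
  | done =>
    intro D E S w hE hw
    obtain ⟨S', w', h1, h2⟩ := hw.of_knot_eq vop_law (E' := ⟨[], isGauss_nil⟩) hE
    obtain ⟨D', h3, h4, h5⟩ := h1.final_virtualize
    exact ⟨D', S', h3, h4, h5, by simpa using h2⟩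
  | step D1 S1 hS k _ ih =>
    intro D E S w hE hw
    obtain ⟨S', w', h1, h2⟩ := hw.of_knot_eq vop_law (E' := D1) hE
    obtain ⟨S'', w'', h3, h4⟩ := h1.virtualize D1.2 hS
    obtain ⟨D', T, h5, h6, h7, h8⟩ := ih D (D1.virtualize S1) S'' w'' rfl h3
    exact ⟨D', T, h5, h6, h7, by omega⟩

/-- For every virtual knot `K` the virtual unknotting number and the virtual unknotting sequence
number are equal. -/
theorem result (K : VirtualKnot) : vu K = vus K := by
  apply le_antisymm
  · apply le_sInf
    rintro _ ⟨k, hk, rfl⟩
    obtain ⟨D, rfl⟩ := Quot.exists_rep K
    obtain ⟨D', S', h1, h2, h3, h4⟩ := simultaneous hk D D ∅ _ rfl (Rep.init vop D.2)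
    apply sInf_le
    exact ⟨D', S', h1, h2, h3, by rw [h4]; simp⟩
  · apply le_sInf
    rintro _ ⟨D, S, rfl, hS, hD, rfl⟩
    apply sInf_le
    refine ⟨S.card + 0, VirtualizingSequence.step D S hS 0 ?_, by simp⟩
    rw [hD]
    exact VirtualizingSequence.done

end Pool.Agent.Results.MP_f8820e_gt.VirtualUnknottingSequence
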